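import Mathlib

namespace Pool.Agent.Results.MP_d643ae_pr.Periodic

open MeasureTheory Real

/-- A probability density on the real line. -/
def IsDensity (f : ℝ → ℝ) : Prop := (∀ x, 0 ≤ f x) ∧ Integrable f ∧ ∫ x, f x = 1

/-- The normal density. -/
noncomputable def phi (a σ x : ℝ) : ℝ :=
  (2 * π * σ ^ 2) ^ (-(1 / 2 : ℝ)) * exp (-(x - a) ^ 2 / (2 * σ ^ 2))

lemma dens {F : ℝ → ℝ} (h0 : ∀ x, 0 < F x) (hi : Integrable F) :
    0 < ∫ x, F x ∧ IsDensity fun x => (∫ y, F y)⁻¹ * F x := by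
  have hp : 0 < ∫ x, F x := by
    rw [integral_pos_iff_support_of_nonneg (fun x => (h0 x).le) hi]
    have : Function.support F = Set.univ := Set.eq_univ_of_forall fun x => (h0 x).ne'
    rw [this]
    simp
  refine ⟨hp, fun x => (mul_pos (inv_pos.mpr hp) (h0 x)).le, hi.const_mul _, ?_⟩
  rw [integral_const_mul, inv_mul_cancel₀ hp.ne']

noncomputable def pp (y : ℝ) : ℝ := 2 + cos (2 * π * y)

lemma pp_pos (y : ℝ) : 0 < pp y := by
  unfold pp
  linarith [neg_one_le_cos (2 * π * y)]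

lemma pp_le (y : ℝ) : pp y ≤ 3 := by
  unfold pp
  linarith [cos_le_one (2 * π * y)]

lemma pp_per (y : ℝ) : pp (y - 1) = pp y := by
  unfold pp
  rw [mul_sub, mul_one, cos_sub_two_pi]

lemma pp_cont : Continuous pp := by
  unfold pp
  fun_prop

noncomputable def F0 (y : ℝ) : ℝ := pp y * exp (-(1 / 2) * y ^ 2)

lemma F0_int : Integrable F0 := by
  refine ((integrable_exp_neg_mul_sq (b := 1 / 2) (by norm_num)).const_mul 3).mono'
    (by unfold F0; exact (pp_cont.mul (by fun_prop)).aestronglyMeasurable)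
    (Filter.Eventually.of_forall fun y => ?_)
  unfold F0
  rw [Real.norm_of_nonneg (mul_pos (pp_pos y) (exp_pos _)).le]
  exact mul_le_mul_of_nonneg_right (pp_le y) (exp_pos _).le

noncomputable def G0 (a u : ℝ) : ℝ :=
  if u = 0 then 1 else exp (-(1 / 2) * u ^ 2) * ((exp (a * u) - exp (-(a * u))) / u)

lemma quot {a u : ℝ} (ha : 0 < a) (hu : 0 < u) :
    0 < (exp (a * u) - exp (-(a * u))) / u ∧
      (exp (a * u) - exp (-(a * u))) / u ≤ 2 * a * exp (a * u) := by
  have h := mul_pos ha hu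
  constructor
  · exact div_pos (sub_pos.mpr (exp_lt_exp.mpr (by linarith))) hu
  · rw [div_le_iff₀ hu]
    have h1 : exp (-(a * u)) = exp (a * u) * exp (-(2 * (a * u))) := by
      rw [← exp_add]
      ring_nf
    have h2 := add_one_le_exp (-(2 * (a * u)))
    have h3 := exp_pos (a * u)
    rw [h1]
    nlinarith

lemma quot' {a u : ℝ} (ha : 0 < a) (hu : u ≠ 0) :
    0 < (exp (a * u) - exp (-(a * u))) / u ∧
      (exp (a * u) - exp (-(a * u))) / u ≤ 2 * a * exp (a * |u|) := by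
  rcases lt_or_gt_of_ne hu with h | h
  · have h1 := quot ha (neg_pos.mpr h)
    have e : (exp (a * -u) - exp (-(a * -u))) / -u = (exp (a * u) - exp (-(a * u))) / u := by
      rw [mul_neg, neg_neg]
      field_simp
      ring
    rw [e] at h1
    rwa [abs_of_neg h]
  · rw [abs_of_pos h]
    exact quot ha h

lemma G0_pos {a : ℝ} (ha : 0 < a) (u : ℝ) : 0 < G0 a u := by
  unfold G0
  split_ifs with h
  · exact one_pos
  · exact mul_pos (exp_pos _) (quot' ha h).1

lemma G0_int {a : ℝ} (ha : 0 < a) : Integrable (G0 a) := by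
  have hm : Measurable (G0 a) := by
    unfold G0
    exact Measurable.ite (measurableSet_singleton 0) measurable_const (by fun_prop)
  refine ((integrable_exp_neg_mul_sq (b := 1 / 4) (by norm_num)).const_mul
    (2 * a * exp (a ^ 2))).mono' hm.aestronglyMeasurable ?_
  filter_upwards [compl_mem_ae_iff.mpr (measure_singleton (0:ℝ))] with u hu
  have hu' : u ≠ 0 := hu
  rw [Real.norm_of_nonneg (G0_pos ha u).le]
  unfold G0
  rw [if_neg hu']
  refine (mul_le_mul_of_nonneg_left (quot' ha hu').2 (exp_pos _).le).trans ?_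
  have h1 : exp (-(1 / 2) * u ^ 2) * exp (a * |u|) ≤ exp (a ^ 2) * exp (-(1 / 4) * u ^ 2) := by
    rw [← exp_add, ← exp_add]
    apply exp_le_exp.mpr
    nlinarith [sq_nonneg (a - |u| / 2), sq_abs u]
  nlinarith

lemma main (n : ℕ) (x : Fin n → ℝ) (hx : ∑ j, x j = 0) :
    Integrable (fun u => u * G0 ((n + 1) / 2) u * ∏ j, F0 (x j - u)) ∧
      ∫ u, u * G0 ((n + 1) / 2) u * ∏ j, F0 (x j - u) = 0 := by
  set a : ℝ := (n + 1) / 2 with ha
  have ha0 : 0 < a := by positivity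
  let H : ℝ → ℝ := fun v => exp (-a * v ^ 2) * ∏ j, pp (x j - (v + 1 / 2))
  have hH : Integrable H := by
    refine ((integrable_exp_neg_mul_sq ha0).const_mul (3 ^ n)).mono' ?_
      (Filter.Eventually.of_forall fun v => ?_)
    · refine Continuous.aestronglyMeasurable ?_
      exact (by fun_prop : Continuous fun v : ℝ => exp (-a * v ^ 2)).mul
        (continuous_finsetProd _ fun j _ => pp_cont.comp (by fun_prop))
    · have h1 : 0 ≤ ∏ j, pp (x j - (v + 1 / 2)) := Finset.prod_nonneg fun j _ => (pp_pos _).le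
      have h2 : ∏ j, pp (x j - (v + 1 / 2)) ≤ ∏ _j : Fin n, (3:ℝ) :=
        Finset.prod_le_prod (fun j _ => (pp_pos _).le) fun j _ => pp_le _
      rw [Finset.prod_const, Finset.card_univ, Fintype.card_fin] at h2
      rw [Real.norm_of_nonneg (mul_nonneg (exp_pos _).le h1), mul_comm]
      exact mul_le_mul_of_nonneg_right h2 (exp_pos _).le
  have e : (fun u => u * G0 a u * ∏ j, F0 (x j - u)) =
      fun u => exp (a / 4 - (1 / 2) * ∑ j, x j ^ 2) * (H (u - 1 / 2) - H (u + 1 / 2)) := by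
    funext u
    have e1 : ∏ j, pp (x j - (u - 1 / 2 + 1 / 2)) = ∏ j, pp (x j - u) :=
      Finset.prod_congr rfl fun j _ => by ring_nf
    have e2 : ∏ j, pp (x j - (u + 1 / 2 + 1 / 2)) = ∏ j, pp (x j - u) :=
      Finset.prod_congr rfl fun j _ => by
        rw [← pp_per (x j - u)]
        ring_nf
    have e3 : ∏ j, F0 (x j - u) = (∏ j, pp (x j - u)) *
        exp (-(1 / 2) * ∑ j, x j ^ 2 - (a - 1 / 2) * u ^ 2) := by
      unfold F0
      rw [Finset.prod_mul_distrib, ← exp_sum]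
      congr 2
      have : ∀ j, -(1 / 2) * (x j - u) ^ 2 = -(1 / 2) * x j ^ 2 + u * x j - (1 / 2) * u ^ 2 :=
        fun j => by ring
      simp only [this, Finset.sum_sub_distrib, Finset.sum_add_distrib, ← Finset.mul_sum, hx,
        Finset.sum_const, Finset.card_univ, Fintype.card_fin, nsmul_eq_mul]
      rw [ha]
      ring
    have e4 : u * G0 a u = exp (-(1 / 2) * u ^ 2) * (exp (a * u) - exp (-(a * u))) := by
      unfold G0
      split_ifs with h
      · simp [h]
      · field_simp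
    simp only [H]
    rw [e1, e2, e3, e4]
    generalize ∏ j, pp (x j - u) = P
    generalize ∑ j, x j ^ 2 = S
    have f1 : exp (-(1 / 2) * u ^ 2) * exp (a * u) * exp (-(1 / 2) * S - (a - 1 / 2) * u ^ 2)
        = exp (a / 4 - (1 / 2) * S) * exp (-a * (u - 1 / 2) ^ 2) := by
      rw [← exp_add, ← exp_add, ← exp_add]
      congr 1
      ring
    have f2 : exp (-(1 / 2) * u ^ 2) * exp (-(a * u)) * exp (-(1 / 2) * S - (a - 1 / 2) * u ^ 2)
        = exp (a / 4 - (1 / 2) * S) * exp (-a * (u + 1 / 2) ^ 2) := by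
      rw [← exp_add, ← exp_add, ← exp_add]
      congr 1
      ring
    linear_combination P * f1 - P * f2
  rw [e]
  have i1 := hH.comp_sub_right (1 / 2)
  have i2 := hH.comp_add_right (1 / 2)
  refine ⟨(i1.sub i2).const_mul _, ?_⟩
  rw [integral_const_mul, integral_sub i1 i2, integral_sub_right_eq_self H,
    integral_add_right_eq_self H]
  ring

theorem result (n : ℕ) : ∃ (f g : ℝ → ℝ) (c : ℝ), IsDensity f ∧ IsDensity g ∧ (∀ x, 0 < g x) ∧
    (∀ x : Fin n → ℝ, ∑ j, x j = 0 →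
      Integrable (fun u => (u - c) * g u * ∏ j, f (x j - u)) ∧
        ∫ u, (u - c) * g u * ∏ j, f (x j - u) = 0) ∧
    ¬ ∃ a σ : ℝ, 0 < σ ∧ f =ᵐ[volume] phi a σ := by
  have hF : ∀ y, 0 < F0 y := fun y => mul_pos (pp_pos y) (exp_pos _)
  have ha : (0:ℝ) < (n + 1) / 2 := by positivity
  obtain ⟨f0, f1⟩ := dens hF F0_int
  obtain ⟨g0, g1⟩ := dens (G0_pos ha) (G0_int ha)
  refine ⟨_, _, 0, f1, g1, fun x => mul_pos (inv_pos.mpr g0) (G0_pos ha x), fun x hx => ?_, ?_⟩
  · obtain ⟨m1, m2⟩ := main n x hx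
    have e : (fun u => (u - 0) * ((∫ y, G0 ((n + 1) / 2) y)⁻¹ * G0 ((n + 1) / 2) u) *
        ∏ j, (∫ y, F0 y)⁻¹ * F0 (x j - u)) = fun u => ((∫ y, G0 ((n + 1) / 2) y)⁻¹ *
          ∏ _j : Fin n, (∫ y, F0 y)⁻¹) * (u * G0 ((n + 1) / 2) u * ∏ j, F0 (x j - u)) := by
      funext u
      rw [Finset.prod_mul_distrib]
      ring
    rw [e]
    exact ⟨m1.const_mul _, by rw [integral_const_mul, m2, mul_zero]⟩
  · rintro ⟨a, σ, hσ, h⟩
    have c1 : Continuous fun x => (∫ y, F0 y)⁻¹ * F0 x := by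
      unfold F0
      exact continuous_const.mul (pp_cont.mul (by fun_prop))
    have c2 : Continuous (phi a σ) := by
      unfold phi
      fun_prop
    have h1 := (c1.ae_eq_iff_eq volume c2).mp h
    have k : phi a σ (1 / 2) ^ 3 * phi a σ (-(1 / 2)) = phi a σ 1 * phi a σ 0 ^ 3 := by
      unfold phi
      generalize (2 * π * σ ^ 2) ^ (-(1 / 2 : ℝ)) = K
      have : exp (-(1 / 2 - a) ^ 2 / (2 * σ ^ 2)) ^ 3 * exp (-(-(1 / 2) - a) ^ 2 / (2 * σ ^ 2))
          = exp (-(1 - a) ^ 2 / (2 * σ ^ 2)) * exp (-(0 - a) ^ 2 / (2 * σ ^ 2)) ^ 3 := by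
        rw [← exp_nat_mul, ← exp_nat_mul, ← exp_add, ← exp_add]
        congr 1
        push_cast
        ring
      linear_combination K ^ 4 * this
    rw [← h1] at k
    have p1 : pp (1 / 2) = 1 := by
      unfold pp
      rw [show 2 * π * (1 / 2) = π by ring, cos_pi]
      norm_num
    have p2 : pp (-(1 / 2)) = 1 := by
      have := pp_per (1 / 2)
      rw [p1, show (1 / 2 - 1 : ℝ) = -(1 / 2) by norm_num] at this
      exact this
    have p3 : pp 0 = 3 := by
      unfold pp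
      norm_num
    have p4 : pp 1 = 3 := by
      rw [← pp_per 1, sub_self, p3]
    have k2 : exp (-(1 / 2) * (1 / 2 : ℝ) ^ 2) ^ 3 * exp (-(1 / 2) * (-(1 / 2) : ℝ) ^ 2)
        = exp (-(1 / 2) * (1 : ℝ) ^ 2) * exp (-(1 / 2) * (0 : ℝ) ^ 2) ^ 3 := by
      rw [← exp_nat_mul, ← exp_nat_mul, ← exp_add, ← exp_add]
      congr 1
      norm_num
    have k3 : 0 < (∫ y, F0 y)⁻¹ ^ 4 *
        (exp (-(1 / 2) * (1 : ℝ) ^ 2) * exp (-(1 / 2) * (0 : ℝ) ^ 2) ^ 3) := by positivity
    generalize (∫ y, F0 y)⁻¹ = Z at k k3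
    simp only [F0, p1, p2, p3, p4] at k
    have : (80:ℝ) * (Z ^ 4 * (exp (-(1 / 2) * (1 : ℝ) ^ 2) * exp (-(1 / 2) * (0 : ℝ) ^ 2) ^ 3))
        = 0 := by linear_combination Z ^ 4 * k2 - k
    linarith

end Pool.Agent.Results.MP_d643ae_pr.Periodic
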